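import Pool.Agent.R481.TraceFS

/-!
An inequality for two positive definite functions on a group one of which is approximately obtained
from the other one by raising to the powers given by all sums of subfamilies of a finite family of
integers.  The exact version on the circle is `Pool.Agent.Results.MP_96e181_an.FiniteSums.ineq`.
-/

set_option autoImplicit false

open MeasureTheory Filter Topology Finset
open scoped ComplexOrder

namespace Pool.Agent.K7.H79.TR

open Pool.Agent.W763.Tr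
open Pool.Agent.Results.MP_96e181_an.FiniteSums (hc hc_nonneg hc_le hc_cont prod_le_avg norm_fourier)
open Pool.Agent.R481.TraceFS (cos_pow)

/-- Herglotz for the powers of an element -/
lemma herg {Γ : Type*} [Group Γ] {φ : Γ → ℂ} (hφ : PD φ) (h1 : φ 1 = 1) (g : Γ) :
    ∃ μ : Measure UnitAddCircle, IsProbabilityMeasure μ ∧
      ∀ n : ℤ, ∫ x, (fourier n x : ℂ) ∂μ = φ (g ^ n) := by
  refine herglotz (c := fun n => φ (g ^ n)) (by simpa using h1) fun N a => ?_
  refine le_of_le_of_eq (hφ.family (range N) (fun j => g ^ j) a) ?_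
  refine sum_congr rfl fun j _ => sum_congr rfl fun k _ => ?_
  have e : (g ^ k)⁻¹ * g ^ j = g ^ ((j : ℤ) - k) := by
    rw [zpow_sub, zpow_natCast, zpow_natCast]
    have : Commute (g ^ k)⁻¹ (g ^ j) := by
      rw [Commute.inv_left_iff]
      exact Commute.pow_pow_self g k j
    exact this
  rw [e]

lemma int_fourier (μ : Measure UnitAddCircle) [IsFiniteMeasure μ] (n : ℤ) :
    Integrable (fun x : UnitAddCircle => (fourier n x : ℂ)) μ :=
  (by fun_prop : Continuous (fun x : UnitAddCircle =>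
      (fourier n x : ℂ))).integrable_of_hasCompactSupport (HasCompactSupport.of_compactSpace _)

/-- the mean of a power of the cosine -/
lemma int_hc {μ : Measure UnitAddCircle} [IsProbabilityMeasure μ] {c : ℤ → ℂ}
    (hμ : ∀ n : ℤ, ∫ x, (fourier n x : ℂ) ∂μ = c n) (n : ℤ) (L : ℕ) :
    ((∫ x, hc n x ^ (2 * L) ∂μ : ℝ) : ℂ) =
      (∑ i ∈ range (2 * L + 1), ((2 * L).choose i : ℂ) * c (n * ((i : ℤ) - L))) / 4 ^ L := by
  rw [← integral_complex_ofReal]
  simp_rw [cos_pow]
  rw [integral_div, integral_finsetSum]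
  · simp_rw [integral_const_mul, hμ]
  · intro i _
    exact (int_fourier μ _).const_mul _

lemma prod_fourier' {K : ℕ} (a : Fin K → ℤ) (F : Finset (Fin K)) (x : UnitAddCircle) :
    ∏ i ∈ F, (fourier (a i) x : ℂ) = fourier (∑ i ∈ F, a i) x := by
  classical
  induction F using Finset.induction_on with
  | empty => simp
  | insert i s hi ih =>
    rw [Finset.prod_insert hi, ih, Finset.sum_insert hi, fourier_add]

/-- the sum of the squares of the distances of the coefficients with weights -/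
lemma weights {c d : ℤ → ℂ} (L : ℕ) {ε : ℝ} (h : ∀ j : ℤ, |j| ≤ L → ‖c j - d j‖ ≤ ε) :
    ‖(∑ i ∈ range (2 * L + 1), ((2 * L).choose i : ℂ) * c ((i : ℤ) - L)) / 4 ^ L -
      (∑ i ∈ range (2 * L + 1), ((2 * L).choose i : ℂ) * d ((i : ℤ) - L)) / 4 ^ L‖ ≤ ε := by
  rw [← sub_div, ← Finset.sum_sub_distrib, norm_div, norm_pow, Complex.norm_ofNat,
    div_le_iff₀ (by positivity)]
  calc ‖∑ i ∈ range (2 * L + 1), (((2 * L).choose i : ℂ) * c ((i : ℤ) - L) -
        ((2 * L).choose i : ℂ) * d ((i : ℤ) - L))‖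
      ≤ ∑ i ∈ range (2 * L + 1), ‖((2 * L).choose i : ℂ) * c ((i : ℤ) - L) -
        ((2 * L).choose i : ℂ) * d ((i : ℤ) - L)‖ := norm_sum_le _ _
    _ ≤ ∑ i ∈ range (2 * L + 1), ((2 * L).choose i : ℝ) * ε := by
        refine sum_le_sum fun i hi => ?_
        rw [← mul_sub, norm_mul, Complex.norm_natCast]
        refine mul_le_mul_of_nonneg_left (h _ ?_) (Nat.cast_nonneg _)
        rw [mem_range] at hi
        rw [abs_le]
        constructor <;> omega
    _ = ε * 4 ^ L := by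
        rw [← Finset.sum_mul]
        have h1 := Nat.sum_range_choose (2 * L)
        have h2 : (∑ i ∈ range (2 * L + 1), ((2 * L).choose i : ℝ)) = 4 ^ L := by
          have : ((∑ i ∈ range (2 * L + 1), (2 * L).choose i : ℕ) : ℝ) = ((2 ^ (2 * L) : ℕ) : ℝ) := by
            rw [h1]
          push_cast at this
          rw [this, pow_mul]
          norm_num
        rw [h2, mul_comm]

/-- **The inequality.** -/
theorem approx_ineq {Γ : Type*} [Group Γ] {φ ψ : Γ → ℂ} (hφ : PD φ) (hφ1 : φ 1 = 1) (hψ : PD ψ)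
    (hψ1 : ψ 1 = 1) (g : Γ) {L : ℕ} (hL : 0 < L) (a : Fin (2 * L) → ℤ) {ε : ℝ}
    (h : ∀ F : Finset (Fin (2 * L)), F.Nonempty → ∀ j : ℕ, 1 ≤ j → j ≤ L →
      ‖ψ (g ^ ((∑ i ∈ F, a i) * j)) - φ (g ^ j)‖ ≤ ε) :
    (‖φ g‖ : ℂ) ≤ 2 / 4 ^ L + 2 * (ε : ℂ) +
      (∑ i ∈ range (2 * L + 1), ((2 * L).choose i : ℂ) * φ (g ^ ((i : ℤ) - L))) / 4 ^ L := by
  classical
  obtain ⟨μ, hμp, hμ⟩ := herg hψ hψ1 g
  obtain ⟨ν, hνp, hν⟩ := herg hφ hφ1 g
  have hKpos : 0 < 2 * L := by omega
  -- all small integers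
  have hε : 0 ≤ ε := by
    have := h {⟨0, hKpos⟩} (Finset.singleton_nonempty _) 1 le_rfl hL
    exact (norm_nonneg _).trans this
  have h' : ∀ F : Finset (Fin (2 * L)), F.Nonempty → ∀ j : ℤ, |j| ≤ L →
      ‖ψ (g ^ ((∑ i ∈ F, a i) * j)) - φ (g ^ j)‖ ≤ ε := by
    intro F hF j hj
    rcases lt_trichotomy j 0 with hj0 | hj0 | hj0
    · obtain ⟨n, hn⟩ := Int.eq_ofNat_of_zero_le (show 0 ≤ -j by omega)
      have hj' : j = -(n : ℤ) := by omega
      rw [abs_of_neg hj0, hn] at hj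
      have h2 := h F hF n (by omega) (by exact_mod_cast hj)
      rw [hj', mul_neg, zpow_neg, zpow_neg, hφ.inv hφ1, hψ.inv hψ1, ← star_sub, norm_star,
        zpow_natCast]
      exact h2
    · rw [hj0, mul_zero, zpow_zero, hφ1, hψ1, sub_self, norm_zero]
      exact hε
    · obtain ⟨n, hn⟩ := Int.eq_ofNat_of_zero_le hj0.le
      rw [abs_of_pos hj0, hn] at hj
      have h2 := h F hF n (by omega) (by exact_mod_cast hj)
      rw [hn, zpow_natCast]
      exact h2
  -- the integral of the product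
  set c : ℂ := φ g with hcdef
  have hcn : ‖c‖ ≤ 1 := by
    have h1 : ∫ x, (fourier 1 x : ℂ) ∂ν = c := by rw [hν, zpow_one]
    rw [← h1]
    have := norm_integral_le_of_norm_le_const (μ := ν) (f := fun x => (fourier 1 x : ℂ)) (C := 1)
      (Eventually.of_forall fun x => (norm_fourier 1 x).le)
    rw [probReal_univ, mul_one] at this
    exact this
  have hexp : ∀ x : UnitAddCircle, ∏ i, ((1 + (fourier (a i) x : ℂ)) / 2) =
      (∑ F : Finset (Fin (2 * L)), (fourier (∑ i ∈ F, a i) x : ℂ)) / 2 ^ (2 * L) := by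
    intro x
    rw [Finset.prod_div_distrib, Finset.prod_const, Finset.card_univ, Fintype.card_fin,
      Finset.prod_one_add, ← Finset.powerset_univ]
    congr 1
    refine Finset.sum_congr ?_ fun F _ => prod_fourier' a F x
    rw [Finset.powerset_univ]
  have hval : ∫ x, ∏ i, ((1 + (fourier (a i) x : ℂ)) / 2) ∂μ =
      (∑ F : Finset (Fin (2 * L)), ψ (g ^ (∑ i ∈ F, a i))) / 2 ^ (2 * L) := by
    simp_rw [hexp]
    rw [integral_div, integral_finsetSum _ fun F _ => int_fourier μ _]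
    simp_rw [hμ]
  -- comparison with `c`
  have hcmp : ‖(∑ F : Finset (Fin (2 * L)), ψ (g ^ (∑ i ∈ F, a i))) / 2 ^ (2 * L) - c‖ ≤
      2 / 4 ^ L + ε := by
    have e4 : (2 : ℝ) ^ (2 * L) = 4 ^ L := by rw [pow_mul]; norm_num
    have e1 : (∑ F : Finset (Fin (2 * L)), ψ (g ^ (∑ i ∈ F, a i))) / 2 ^ (2 * L) - c =
        (∑ F : Finset (Fin (2 * L)), (ψ (g ^ (∑ i ∈ F, a i)) - c)) / 2 ^ (2 * L) := by
      rw [Finset.sum_sub_distrib, Finset.sum_const, Finset.card_univ, Fintype.card_finset,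
        Fintype.card_fin, nsmul_eq_mul, sub_div]
      congr 1
      push_cast
      field_simp
    rw [e1, norm_div, norm_pow, Complex.norm_ofNat, div_le_iff₀ (by positivity)]
    have h2 : ∀ F : Finset (Fin (2 * L)), ‖ψ (g ^ (∑ i ∈ F, a i)) - c‖ ≤
        ε + if F = ∅ then 2 else 0 := by
      intro F
      split_ifs with hF
      · rw [hF, Finset.sum_empty, zpow_zero, hψ1]
        calc ‖1 - c‖ ≤ ‖(1 : ℂ)‖ + ‖c‖ := norm_sub_le _ _
          _ ≤ ε + 2 := by rw [norm_one]; linarith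
      · rw [add_zero]
        have := h F (Finset.nonempty_iff_ne_empty.2 hF) 1 le_rfl hL
        rwa [Nat.cast_one, mul_one, pow_one] at this
    calc ‖∑ F : Finset (Fin (2 * L)), (ψ (g ^ (∑ i ∈ F, a i)) - c)‖
        ≤ ∑ F : Finset (Fin (2 * L)), ‖ψ (g ^ (∑ i ∈ F, a i)) - c‖ := norm_sum_le _ _
      _ ≤ ∑ F : Finset (Fin (2 * L)), (ε + if F = ∅ then 2 else 0) := sum_le_sum fun F _ => h2 F
      _ = 2 ^ (2 * L) * ε + 2 := by
          rw [Finset.sum_add_distrib, Finset.sum_const, Finset.card_univ, Fintype.card_finset,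
            Fintype.card_fin, nsmul_eq_mul, Finset.sum_ite_eq' Finset.univ ∅ (fun _ => (2 : ℝ)),
            if_pos (Finset.mem_univ _)]
          push_cast
          rfl
      _ ≤ (2 / 4 ^ L + ε) * 2 ^ (2 * L) := by
          rw [e4, add_mul, div_mul_cancel₀ _ (by positivity)]
          linarith
  -- upper bound
  have hub : ‖∫ x, ∏ i, ((1 + (fourier (a i) x : ℂ)) / 2) ∂μ‖ ≤
      ((∑ i ∈ range (2 * L + 1), ((2 * L).choose i : ℂ) * φ (g ^ ((i : ℤ) - L))) / 4 ^ L).re
        + ε := by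
    have hKR : (0 : ℝ) < ((2 * L : ℕ) : ℝ) := by exact_mod_cast hKpos
    have hi : ∀ i, ∫ x, hc (a i) x ^ (2 * L) ∂μ ≤
        ((∑ i ∈ range (2 * L + 1), ((2 * L).choose i : ℂ) * φ (g ^ ((i : ℤ) - L))) / 4 ^ L).re
          + ε := by
      intro i
      have h1 := int_hc hμ (a i) L
      have h2 := weights (c := fun j => ψ (g ^ (a i * j))) (d := fun j => φ (g ^ j)) L
        (ε := ε) (fun j hj => by
          have := h' {i} (Finset.singleton_nonempty i) j hj
          rwa [Finset.sum_singleton] at this)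
      rw [← h1] at h2
      have h3 := (Complex.abs_re_le_norm _).trans h2
      rw [Complex.sub_re, Complex.ofReal_re] at h3
      linarith [(abs_le.1 h3).2]
    have hii : ∀ i, Integrable (fun x => hc (a i) x ^ (2 * L)) μ := by
      intro i
      refine Integrable.of_bound (C := 1) ?_ (Eventually.of_forall fun x => ?_)
      · exact ((hc_cont (a i)).pow (2 * L)).aestronglyMeasurable
      · rw [Real.norm_of_nonneg (pow_nonneg (hc_nonneg _ _) _)]
        exact pow_le_one₀ (hc_nonneg _ _) (hc_le _ _)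
    calc ‖∫ x, ∏ i, ((1 + (fourier (a i) x : ℂ)) / 2) ∂μ‖
        ≤ ∫ x, ‖∏ i, ((1 + (fourier (a i) x : ℂ)) / 2)‖ ∂μ := norm_integral_le_integral_norm _
      _ ≤ ∫ x, (1 / ((2 * L : ℕ) : ℝ)) * ∑ i, hc (a i) x ^ (2 * L) ∂μ := by
          refine integral_mono_of_nonneg (Eventually.of_forall fun x => norm_nonneg _)
            ((integrable_finsetSum _ fun i _ => hii i).const_mul _) (Eventually.of_forall fun x => ?_)
          show ‖∏ i, ((1 + (fourier (a i) x : ℂ)) / 2)‖ ≤ _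
          rw [norm_prod]
          exact prod_le_avg hKpos (fun i => hc (a i) x) fun i => hc_nonneg _ _
      _ ≤ ((∑ i ∈ range (2 * L + 1), ((2 * L).choose i : ℂ) * φ (g ^ ((i : ℤ) - L))) / 4 ^ L).re
          + ε := by
          rw [integral_const_mul, integral_finsetSum _ fun i _ => hii i, one_div,
            inv_mul_le_iff₀ hKR]
          refine (sum_le_sum fun i _ => hi i).trans ?_
          rw [Finset.sum_const, Finset.card_univ, Fintype.card_fin, nsmul_eq_mul]
  rw [hval] at hub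
  have hreal := int_hc hν 1 L
  simp only [one_mul] at hreal
  rw [← hreal] at hub ⊢
  rw [Complex.ofReal_re] at hub
  have hfin : ‖c‖ ≤ 2 / 4 ^ L + 2 * ε + ∫ x, hc 1 x ^ (2 * L) ∂ν := by
    have h9 : ‖c‖ ≤ ‖(∑ F : Finset (Fin (2 * L)), ψ (g ^ (∑ i ∈ F, a i))) / 2 ^ (2 * L)‖ +
        ‖(∑ F : Finset (Fin (2 * L)), ψ (g ^ (∑ i ∈ F, a i))) / 2 ^ (2 * L) - c‖ := by
      have := norm_sub_le ((∑ F : Finset (Fin (2 * L)), ψ (g ^ (∑ i ∈ F, a i))) / 2 ^ (2 * L))
        ((∑ F : Finset (Fin (2 * L)), ψ (g ^ (∑ i ∈ F, a i))) / 2 ^ (2 * L) - c)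
      rwa [sub_sub_cancel] at this
    linarith
  have h10 : ((‖c‖ : ℝ) : ℂ) ≤ ((2 / 4 ^ L + 2 * ε + ∫ x, hc 1 x ^ (2 * L) ∂ν : ℝ) : ℂ) := by
    exact_mod_cast hfin
  refine h10.trans (le_of_eq ?_)
  push_cast
  ring

end Pool.Agent.K7.H79.TR
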