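import Pool.Agent.R477.XQ.Overlap
import Pool.Agent.R481.TraceErg

/-!
Common parts of the spectral measures of two translations in two traces.
-/

set_option autoImplicit false

open MeasureTheory Filter Topology Finset
open scoped ComplexOrder ENNReal NNReal

namespace Pool.Agent.K7.H79.TR

open Pool.Agent.W763.Tr
open Pool.Agent.TH654.FC
open Pool.Agent.TH463.UQ (finite_or_atomless)
open Pool.Agent.R481.TraceErg (ext ext_trans ext_other ext_class ext_pd ext_one)
open Pool.Agent.R481.TraceBT (vanish)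
open Pool.Agent.R481.TraceFS (zpow_apply)

/-- positive definite sequences on `ℤ` -/
def PosDef (κ : ℤ → ℂ) : Prop :=
  ∀ (N : ℕ) (a : ℕ → ℂ), 0 ≤ ∑ j ∈ range N, ∑ k ∈ range N, star (a k) * a j * κ ((j : ℤ) - k)

lemma PosDef.add {κ ι : ℤ → ℂ} (hκ : PosDef κ) (hι : PosDef ι) : PosDef (fun n => κ n + ι n) := by
  intro N a
  refine le_of_le_of_eq (add_nonneg (hκ N a) (hι N a)) ?_
  simp only [mul_add, Finset.sum_add_distrib]

lemma PosDef.smul {κ : ℤ → ℂ} (hκ : PosDef κ) {c : ℝ} (hc : 0 ≤ c) : PosDef (fun n => (c : ℂ) * κ n) := by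
  intro N a
  have hc' : (0 : ℂ) ≤ c := by exact_mod_cast hc
  refine le_of_le_of_eq (mul_nonneg hc' (hκ N a)) ?_
  rw [Finset.mul_sum]
  refine sum_congr rfl fun j _ => ?_
  rw [Finset.mul_sum]
  refine sum_congr rfl fun k _ => ?_
  ring

lemma PosDef.zero {κ : ℤ → ℂ} (hκ : PosDef κ) : 0 ≤ κ 0 := by
  have := hκ 1 (fun _ => 1)
  simpa using this

lemma pd_of_meas (K : Measure UnitAddCircle) [IsFiniteMeasure K] :
    PosDef (fun n => ∫ x, (fourier n x : ℂ) ∂K) := by
  intro N a
  have hi : ∀ m : ℤ, Integrable (fun x : UnitAddCircle => (fourier m x : ℂ)) K := fun m =>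
    (by fun_prop : Continuous (fun x : UnitAddCircle =>
      (fourier m x : ℂ))).integrable_of_hasCompactSupport (HasCompactSupport.of_compactSpace _)
  have hQ : ∑ i ∈ range N, ∑ j ∈ range N, star (a j) * a i * ∫ x, (fourier ((i : ℤ) - j) x : ℂ) ∂K =
      ((∫ x, ‖∑ n ∈ range N, a n * (fourier (n : ℤ) x : ℂ)‖ ^ 2 ∂K : ℝ) : ℂ) := by
    rw [← integral_complex_ofReal]
    have hsq : ∀ x : UnitAddCircle, ((‖∑ n ∈ range N, a n * (fourier (n : ℤ) x : ℂ)‖ ^ 2 : ℝ) : ℂ) =
        ∑ i ∈ range N, ∑ j ∈ range N, star (a j) * a i * fourier ((i : ℤ) - j) x := by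
      intro x
      have e2 : ((‖∑ n ∈ range N, a n * (fourier (n : ℤ) x : ℂ)‖ ^ 2 : ℝ) : ℂ) =
          (∑ n ∈ range N, a n * (fourier (n : ℤ) x : ℂ)) *
          starRingEnd ℂ (∑ n ∈ range N, a n * (fourier (n : ℤ) x : ℂ)) := by
        rw [Complex.mul_conj, Complex.normSq_eq_norm_sq]
      rw [e2, map_sum, Finset.sum_mul_sum]
      refine Finset.sum_congr rfl fun i _ => Finset.sum_congr rfl fun j _ => ?_
      rw [map_mul, ← fourier_neg, sub_eq_add_neg, fourier_add]
      simp only [Complex.star_def]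
      ring
    simp only [hsq]
    rw [integral_finsetSum]
    · refine Finset.sum_congr rfl fun i _ => ?_
      rw [integral_finsetSum]
      · refine Finset.sum_congr rfl fun j _ => ?_
        rw [integral_const_mul]
      · intro j _
        exact (hi _).const_mul _
    · intro i _
      exact integrable_finsetSum _ fun j _ => (hi _).const_mul _
  rw [hQ]
  have : (0 : ℝ) ≤ ∫ x, ‖∑ n ∈ range N, a n * (fourier (n : ℤ) x : ℂ)‖ ^ 2 ∂K :=
    integral_nonneg fun x => by positivity
  exact_mod_cast this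

lemma coeff_vol (n : ℤ) : ∫ x : UnitAddCircle, (fourier n x : ℂ) = if n = 0 then 1 else 0 := by
  split_ifs with h
  · subst h
    simp
  · exact Pool.Agent.R202.coeff_zero irrational_sqrt_two (measurePreserving_add_right volume _).map_eq h

lemma pd_delta {c : ℝ} (hc : 0 ≤ c) : PosDef (fun n => if n = 0 then (c : ℂ) else 0) := by
  have h := (pd_of_meas (volume : Measure UnitAddCircle)).smul hc
  have e : (fun n : ℤ => (c : ℂ) * ∫ x : UnitAddCircle, (fourier n x : ℂ)) =
      fun n => if n = 0 then (c : ℂ) else 0 := by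
    funext n
    rw [coeff_vol]
    split_ifs <;> simp
  rwa [e] at h

lemma meas_pos {κ : ℤ → ℂ} (h : PosDef κ) (h0 : 0 < (κ 0).re) :
    ∃ K : Measure UnitAddCircle, IsFiniteMeasure K ∧ K Set.univ = ENNReal.ofReal (κ 0).re ∧
      ∀ n : ℤ, ∫ x, (fourier n x : ℂ) ∂K = κ n := by
  have hz := h.zero
  have him : (κ 0).im = 0 := ((Complex.nonneg_iff.1 hz).2).symm
  set k : ℝ := (κ 0).re with hk
  have hκ0 : κ 0 = (k : ℂ) := Complex.ext rfl (by simpa using him)
  have hkc : (k : ℂ) ≠ 0 := by exact_mod_cast h0.ne'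
  have h1 := h.smul (inv_nonneg.2 h0.le)
  obtain ⟨μ, hμ, hc⟩ := herglotz (c := fun n => ((k⁻¹ : ℝ) : ℂ) * κ n) (by
    rw [hκ0]
    push_cast
    exact inv_mul_cancel₀ hkc) h1
  refine ⟨ENNReal.ofReal k • μ, ⟨?_⟩, ?_, fun n => ?_⟩
  · rw [Measure.smul_apply, measure_univ, smul_eq_mul, mul_one]
    exact ENNReal.ofReal_lt_top
  · rw [Measure.smul_apply, measure_univ, smul_eq_mul, mul_one]
  · rw [integral_smul_measure, hc, ENNReal.toReal_ofReal h0.le, Complex.real_smul]
    push_cast
    rw [← mul_assoc, mul_inv_cancel₀ hkc, one_mul]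

lemma eq_zero_of_zero {κ : ℤ → ℂ} (h : PosDef κ) (h0 : κ 0 = 0) (n : ℤ) : κ n = 0 := by
  by_cases hn : n = 0
  · rw [hn, h0]
  · have key : ∀ ε : ℝ, 0 < ε → ‖κ n‖ ≤ ε := by
      intro ε hε
      have h1 := h.add (pd_delta hε.le)
      obtain ⟨K, hK, hKu, hKc⟩ := meas_pos h1 (by simpa [h0] using hε)
      have h2 := hKc n
      simp only [if_neg hn, add_zero] at h2
      simp only [h0, if_true, zero_add, Complex.ofReal_re] at hKu
      rw [← h2]
      have h3 := norm_integral_le_of_norm_le_const (μ := K) (f := fun x => (fourier n x : ℂ)) (C := 1)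
        (Eventually.of_forall fun x => by rw [fourier_apply]; exact (Circle.norm_coe _).le)
      rw [measureReal_def, hKu, ENNReal.toReal_ofReal hε.le, one_mul] at h3
      exact h3
    have h4 : ‖κ n‖ ≤ 0 := le_of_forall_pos_le_add fun ε hε => by
      rw [zero_add]; exact key ε hε
    exact norm_le_zero_iff.1 h4

/-- Herglotz' theorem for positive definite sequences which are not normalised -/
lemma meas_of_pd {κ : ℤ → ℂ} (h : PosDef κ) :
    ∃ K : Measure UnitAddCircle, IsFiniteMeasure K ∧ K Set.univ = ENNReal.ofReal (κ 0).re ∧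
      ∀ n : ℤ, ∫ x, (fourier n x : ℂ) ∂K = κ n := by
  have hz := Complex.nonneg_iff.1 h.zero
  rcases hz.1.lt_or_eq with h0 | h0
  · exact meas_pos h h0
  · have hκ0 : κ 0 = 0 := Complex.ext h0.symm hz.2.symm
    refine ⟨0, inferInstance, by rw [hκ0]; simp, fun n => ?_⟩
    rw [eq_zero_of_zero h hκ0 n, integral_zero_measure]

/-- a dominated sequence gives a dominated measure -/
lemma dominated {κ : ℤ → ℂ} {μ K : Measure UnitAddCircle} [IsFiniteMeasure μ] [IsFiniteMeasure K]
    (hK : ∀ n : ℤ, ∫ x, (fourier n x : ℂ) ∂K = κ n)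
    (h : PosDef (fun n => ∫ x, (fourier n x : ℂ) ∂μ - κ n)) : K ≤ μ := by
  obtain ⟨L, hL, -, hLc⟩ := meas_of_pd h
  have hi : ∀ (ν : Measure UnitAddCircle) [IsFiniteMeasure ν] (m : ℤ),
      Integrable (fun x : UnitAddCircle => (fourier m x : ℂ)) ν := fun ν _ m =>
    (by fun_prop : Continuous (fun x : UnitAddCircle =>
      (fourier m x : ℂ))).integrable_of_hasCompactSupport (HasCompactSupport.of_compactSpace _)
  have h1 : K + L = μ := by
    refine Pool.Agent.R202.ext_fourier fun n => ?_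
    rw [integral_add_measure (hi K n) (hi L n), hK, hLc]
    ring
  rw [← h1]
  exact Measure.le_add_right le_rfl

/-- the overlap of the measures from a common positive definite sequence -/
lemma ov_of_pd {μ ν : Measure UnitAddCircle} [IsProbabilityMeasure μ] [IsProbabilityMeasure ν]
    {θ : UnitAddCircle} {κ : ℤ → ℂ} (hκ : PosDef κ)
    (h1 : PosDef (fun n => ∫ x, (fourier n x : ℂ) ∂μ - κ n))
    (h2 : PosDef (fun n => (fourier n θ : ℂ) * ∫ x, (fourier n x : ℂ) ∂ν - κ n)) {c : ℝ≥0}
    (hc : (c : ℝ) ≤ (κ 0).re) : Pool.Agent.R477.XQ.Ov c 1 1 μ ν θ := by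
  obtain ⟨K, hK, hKu, hKc⟩ := meas_of_pd hκ
  have hm : Measurable fun x : UnitAddCircle => x + θ := measurable_add_const θ
  have hν1 : IsProbabilityMeasure (ν.map fun x : UnitAddCircle => x + θ) :=
    Measure.isProbabilityMeasure_map hm.aemeasurable
  have e1 : K ≤ μ := dominated hKc h1
  have e2 : K ≤ ν.map (fun x : UnitAddCircle => x + θ) := by
    refine dominated hKc ?_
    have : (fun n : ℤ => ∫ x, (fourier n x : ℂ) ∂(ν.map fun x : UnitAddCircle => x + θ) - κ n) =
        fun n => (fourier n θ : ℂ) * ∫ x, (fourier n x : ℂ) ∂ν - κ n := by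
      funext n
      rw [integral_map hm.aemeasurable (fourier n).continuous.aestronglyMeasurable,
        ← integral_const_mul]
      congr 1
      refine integral_congr_ae (Eventually.of_forall fun x => ?_)
      simp only
      rw [fourier_apply, fourier_apply, fourier_apply, smul_add, AddCircle.toCircle_add,
        Circle.coe_mul, mul_comm]
    rw [this]
    exact h2
  intro A hA
  have h3 : (c : ℝ≥0∞) ≤ K Set.univ := by
    rw [hKu, ← ENNReal.ofReal_coe_nnreal]
    exact ENNReal.ofReal_le_ofReal hc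
  have h4 : K Set.univ = K A + K Aᶜ := (measure_add_measure_compl hA).symm
  have h5 : (ν.map fun x : UnitAddCircle => x + θ) Aᶜ = ν {x | (1 : ℤ) • x + θ ∉ A} := by
    rw [Measure.map_apply hm hA.compl]
    congr 1
    ext x
    simp
  have h6 : μ A = μ {x | (1 : ℤ) • x ∈ A} := by simp
  calc (c : ℝ≥0∞) ≤ K A + K Aᶜ := by rw [← h4]; exact h3
    _ ≤ μ A + (ν.map fun x : UnitAddCircle => x + θ) Aᶜ := add_le_add (e1 _) (e2 _)
    _ = _ := by rw [h5, h6]

/-- the Lebesgue part as a positive definite sequence -/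
lemma pd_of_le {μ : Measure UnitAddCircle} [IsProbabilityMeasure μ] {c : ℝ≥0}
    (h : (c : ℝ≥0∞) • (volume : Measure UnitAddCircle) ≤ μ) :
    ∃ ρ : Measure UnitAddCircle, IsFiniteMeasure ρ ∧ ρ Set.univ = 1 - c ∧
      ∀ n : ℤ, ∫ x, (fourier n x : ℂ) ∂ρ = ∫ x, (fourier n x : ℂ) ∂μ - if n = 0 then (c : ℂ) else 0 := by
  have hfc : IsFiniteMeasure ((c : ℝ≥0∞) • (volume : Measure UnitAddCircle)) :=
    isFiniteMeasure_of_le μ h
  set ρ := μ - (c : ℝ≥0∞) • (volume : Measure UnitAddCircle) with hρ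
  have hadd : ρ + (c : ℝ≥0∞) • (volume : Measure UnitAddCircle) = μ := Measure.sub_add_cancel_of_le h
  have hfρ : IsFiniteMeasure ρ := isFiniteMeasure_of_le μ (by
    rw [← hadd]; exact Measure.le_add_right le_rfl)
  have hi : ∀ (ν : Measure UnitAddCircle) [IsFiniteMeasure ν] (m : ℤ),
      Integrable (fun x : UnitAddCircle => (fourier m x : ℂ)) ν := fun ν _ m =>
    (by fun_prop : Continuous (fun x : UnitAddCircle =>
      (fourier m x : ℂ))).integrable_of_hasCompactSupport (HasCompactSupport.of_compactSpace _)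
  refine ⟨ρ, hfρ, ?_, fun n => ?_⟩
  · have h1 : ρ Set.univ + c = 1 := by
      have := congrArg (fun m : Measure UnitAddCircle => m Set.univ) hadd
      simp only [Measure.add_apply, Measure.smul_apply, smul_eq_mul, measure_univ, mul_one] at this
      exact this
    rw [← h1]
    exact (ENNReal.add_sub_cancel_right ENNReal.coe_ne_top).symm
  · have h2 : ∫ x, (fourier n x : ℂ) ∂μ = ∫ x, (fourier n x : ℂ) ∂ρ +
        ∫ x, (fourier n x : ℂ) ∂((c : ℝ≥0∞) • (volume : Measure UnitAddCircle)) := by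
      rw [← integral_add_measure (hi ρ n) (hi _ n), hadd]
    rw [h2, integral_smul_measure, coeff_vol, ENNReal.coe_toReal]
    split_ifs
    · rw [Complex.real_smul]
      simp
    · simp

section

variable {G : Subgroup (Equiv.Perm ℚ)} {τ : ℤ → G} {φ : G → ℂ} {S6 : G} {μ : Measure UnitAddCircle}

/-- **An extreme trace whose measure has a Lebesgue part is regular.** -/
theorem regular_of_part (D : Data G τ φ S6 μ)
    (hext : φ ∈ Set.extremePoints ℝ {ψ : G → ℂ | ψ 1 = 1 ∧ (∀ g h : G, ψ (h * g * h⁻¹) = ψ g) ∧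
        ∀ (s : Finset G) (c : G → ℂ), 0 ≤ ∑ i ∈ s, ∑ j ∈ s, star (c j) * c i * ψ (j⁻¹ * i)})
    {c : ℝ≥0} (hc : 0 < c) (h : (c : ℝ≥0∞) • (volume : Measure UnitAddCircle) ≤ μ) :
    φ = Set.indicator ({1} : Set G) (fun _ => (1 : ℂ)) := by
  have := D.prob
  set c' : ℝ≥0 := min c (1 / 2) with hc'
  have hc'0 : 0 < c' := lt_min hc (by norm_num)
  have hc'1 : (c' : ℝ) ≤ 1 / 2 := by
    have : c' ≤ 1 / 2 := min_le_right _ _
    exact_mod_cast this
  have h' : (c' : ℝ≥0∞) • (volume : Measure UnitAddCircle) ≤ μ := by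
    refine le_trans ?_ h
    intro s
    rw [Measure.smul_apply, Measure.smul_apply, smul_eq_mul, smul_eq_mul]
    exact mul_le_mul_left (by exact_mod_cast min_le_left c (1 / 2)) _
  obtain ⟨ρ, hρf, hρu, hρc⟩ := pd_of_le h'
  have hr0 : (0 : ℝ) < c' := by exact_mod_cast hc'0
  have hd : (0 : ℝ) < 1 - c' := by linarith
  have hdc : ((1 : ℂ) - (c' : ℂ)) ≠ 0 := by
    have : ((1 - (c' : ℝ) : ℝ) : ℂ) ≠ 0 := by exact_mod_cast hd.ne'
    push_cast at this
    exact this
  have hρr : ρ.real Set.univ = 1 - c' := by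
    rw [measureReal_def, hρu, ENNReal.toReal_sub_of_le ?_ ENNReal.one_ne_top]
    · simp
    · have : (c' : ℝ≥0) ≤ 1 := by
        have : (c' : ℝ) ≤ 1 := by linarith
        exact_mod_cast this
      exact_mod_cast this
  rcases finite_or_atomless D hext with hfd | hat
  · exfalso
    obtain ⟨M, hM1, hM⟩ := exists_kernel D.hτ D.hμ D.h2 hfd
    have h1 := hM 1
    rw [mul_one] at h1
    have h2 := hρc M
    rw [D.hμ, h1, if_neg (by exact_mod_cast (by omega : M ≠ 0)), sub_zero] at h2
    have h3 := norm_integral_le_of_norm_le_const (μ := ρ) (f := fun x => (fourier (M : ℤ) x : ℂ))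
      (C := 1) (Eventually.of_forall fun x => by rw [fourier_apply]; exact (Circle.norm_coe _).le)
    rw [h2, norm_one, hρr] at h3
    linarith
  · -- the two measures
    set μ1 : Measure UnitAddCircle := (ENNReal.ofReal (1 - c'))⁻¹ • ρ with hμ1
    have hne : ENNReal.ofReal (1 - c') ≠ 0 := by
      rw [Ne, ENNReal.ofReal_eq_zero, not_le]; exact hd
    have hρu' : ρ Set.univ = ENNReal.ofReal (1 - c') := by
      rw [← hρr, measureReal_def, ENNReal.ofReal_toReal (measure_ne_top _ _)]
    have p1 : IsProbabilityMeasure μ1 := ⟨by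
      rw [hμ1, Measure.smul_apply, hρu', smul_eq_mul,
        ENNReal.inv_mul_cancel hne ENNReal.ofReal_ne_top]⟩
    have hc1 : ∀ n : ℤ, ∫ x, (fourier n x : ℂ) ∂μ1 =
        (φ (τ n) - if n = 0 then (c' : ℂ) else 0) / (1 - c') := by
      intro n
      rw [hμ1, integral_smul_measure, hρc, D.hμ, ENNReal.toReal_inv, ENNReal.toReal_ofReal hd.le,
        Complex.real_smul, div_eq_inv_mul]
      push_cast
      rfl
    have q1 : MeasurePreserving (fun x : UnitAddCircle => 2 • x) μ1 μ1 := by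
      refine mp_nsmul hc1 fun n => ?_
      have : φ (τ (n * (2 : ℕ))) = φ (τ n) := by
        rw [mul_comm]; exact_mod_cast D.h2 n
      rw [this]
      congr 2
      simp
    have r1 : MeasurePreserving (fun x : UnitAddCircle => 3 • x) μ1 μ1 := by
      refine mp_nsmul hc1 fun n => ?_
      have : φ (τ (n * (3 : ℕ))) = φ (τ n) := by
        rw [mul_comm]; exact_mod_cast D.h3 n
      rw [this]
      congr 2
      simp
    have q2 : MeasurePreserving (fun x : UnitAddCircle => 2 • x)
        (volume : Measure UnitAddCircle) volume := by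
      refine mp_nsmul (c := fun n => if n = 0 then 1 else 0) coeff_vol fun n => ?_
      congr 1
      simp
    have r2 : MeasurePreserving (fun x : UnitAddCircle => 3 • x)
        (volume : Measure UnitAddCircle) volume := by
      refine mp_nsmul (c := fun n => if n = 0 then 1 else 0) coeff_vol fun n => ?_
      congr 1
      simp
    have hT : ∀ (ν : Measure UnitAddCircle) [IsProbabilityMeasure ν],
        MeasurePreserving (fun x : UnitAddCircle => 2 • x) ν ν →
        MeasurePreserving (fun x : UnitAddCircle => 3 • x) ν ν →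
        ext G ν ∈ {ψ : G → ℂ | ψ 1 = 1 ∧ (∀ g h : G, ψ (h * g * h⁻¹) = ψ g) ∧
          ∀ (s : Finset G) (c : G → ℂ), 0 ≤ ∑ i ∈ s, ∑ j ∈ s, star (c j) * c i * ψ (j⁻¹ * i)} :=
      fun ν _ n2 n3 => ⟨ext_one n2 n3, fun g h => ext_class n2 n3 D.hform g h,
        ext_pd n2 n3 D.hform⟩
    have hdec : (c' : ℝ) • ext G volume + (1 - (c' : ℝ)) • ext G μ1 = φ := by
      funext g
      simp only [Pi.add_apply, Pi.smul_apply]
      by_cases hg : ∃ r : ℚ, ∀ x : ℚ, (g : Equiv.Perm ℚ) x = x + r
      · obtain ⟨r, hg⟩ := hg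
        obtain ⟨n, k, hr⟩ := D.six hg
        rw [hr] at hg
        rw [ext_trans q1 r1 hg, ext_trans q2 r2 hg, phi_trans D.hτ D.hcl S6 D.hS6 g n k hg, hc1,
          coeff_vol, Complex.real_smul, Complex.real_smul]
        push_cast
        rw [mul_div_cancel₀ _ hdc]
        split_ifs <;> simp
      · rw [ext_other hg, ext_other hg, smul_zero, smul_zero, add_zero, vanish D hat g hg]
    have hseg : φ ∈ openSegment ℝ (ext G volume) (ext G μ1) :=
      ⟨c', 1 - c', hr0, hd, by ring, hdec⟩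
    have h5 := hext.2 (hT volume q2 r2) (hT μ1 q1 r1) hseg
    have hz : ∀ n : ℤ, n ≠ 0 → φ (τ n) = 0 := by
      intro n hn
      rw [← h5, ext_trans q2 r2 (g := τ n) (n := n) (k := 0) (fun x => by rw [D.hτ]; simp),
        coeff_vol, if_neg hn]
    funext g
    by_cases hg : g = 1
    · rw [hg, D.h1]
      simp
    · rw [eq_regular D.hτ D.h1 D.hcl D.hpd S6 D.hS6 D.hform hz g hg]
      simp [hg]

end

end Pool.Agent.K7.H79.TR
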