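import Pool.Agent.H261R2.FU.Dir3
import Pool.Agent.TH654.FC.Growth
import Pool.Agent.W763.Tr.Grp

/-!
Ergodic averages of a unitary at two scales: bounds by the mass of the spectral measure between the
scales, and the Cauchy–Schwarz inequality for positive definite functions.
-/

set_option autoImplicit false

open MeasureTheory Filter Topology Finset
open scoped ComplexOrder

namespace Pool.Agent.K7.H79.TR

open Pool.Agent.W763.Tr

/-- the average of the first `N` characters -/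
noncomputable def Dir (N : ℕ) (x : UnitAddCircle) : ℂ :=
  (N : ℂ)⁻¹ * ∑ n ∈ range N, (fourier (n : ℤ) x : ℂ)

lemma norm_f (n : ℤ) (x : UnitAddCircle) : ‖(fourier n x : ℂ)‖ = 1 := by
  rw [fourier_apply]
  exact Circle.norm_coe _

lemma Dir_cont (N : ℕ) : Continuous (Dir N) := by
  unfold Dir
  exact continuous_const.mul (continuous_finsetSum _ fun n _ => map_continuous (fourier _))

lemma Dir_le {N : ℕ} (hN : 1 ≤ N) (x : UnitAddCircle) : ‖Dir N x‖ ≤ 1 := by
  unfold Dir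
  have hN' : (0 : ℝ) < N := by exact_mod_cast hN
  rw [norm_mul, norm_inv, Complex.norm_natCast, inv_mul_le_iff₀ hN', mul_one]
  refine (norm_sum_le _ _).trans ?_
  rw [Finset.sum_congr rfl fun (n : ℕ) _ => norm_f (n : ℤ) x, Finset.sum_const, card_range,
    nsmul_eq_mul, mul_one]

lemma Dir_far {N : ℕ} (hN : 1 ≤ N) {x : UnitAddCircle} {ρ : ℝ} (hρ : 0 < ρ) (hx : ρ ≤ ‖x‖) :
    ‖Dir N x‖ ≤ 1 / (2 * ρ * N) := by
  have hN' : (0 : ℝ) < N := by exact_mod_cast hN
  set z : ℂ := fourier 1 x with hz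
  have hzn : ∀ n : ℕ, (fourier (n : ℤ) x : ℂ) = z ^ n := by
    intro n
    induction n with
    | zero => simp
    | succ n ih =>
      rw [pow_succ, ← ih, hz, ← fourier_add]
      norm_num
  have h1 : (∑ n ∈ range N, (fourier (n : ℤ) x : ℂ)) * (z - 1) = z ^ N - 1 := by
    simp_rw [hzn]
    exact geom_sum_mul z N
  have h2 : ‖z ^ N - 1‖ ≤ 2 := by
    calc ‖z ^ N - 1‖ ≤ ‖z ^ N‖ + ‖(1 : ℂ)‖ := norm_sub_le _ _
      _ = 2 := by rw [norm_pow, hz, norm_f, norm_one]; norm_num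
  have h3 : 4 * ρ ≤ ‖z - 1‖ := by
    have := Pool.Agent.H261R2.FU.four_norm_le 1 x
    rw [one_smul] at this
    linarith
  have h4 : ‖∑ n ∈ range N, (fourier (n : ℤ) x : ℂ)‖ * (4 * ρ) ≤ 2 := by
    rw [← h1, norm_mul] at h2
    exact (mul_le_mul_of_nonneg_left h3 (norm_nonneg _)).trans h2
  unfold Dir
  rw [norm_mul, norm_inv, Complex.norm_natCast, inv_mul_le_iff₀ hN']
  have e : (N : ℝ) * (1 / (2 * ρ * N)) = 1 / (2 * ρ) := by
    field_simp
  rw [e, le_div_iff₀ (by positivity)]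
  linarith

lemma Dir_near {N : ℕ} (hN : 1 ≤ N) (x : UnitAddCircle) :
    ‖Dir N x - 1‖ ≤ 2 * Real.pi * N * ‖x‖ := by
  have hN' : (0 : ℝ) < N := by exact_mod_cast hN
  have hN0 : (N : ℂ) ≠ 0 := by exact_mod_cast hN'.ne'
  have e : Dir N x - 1 = (N : ℂ)⁻¹ * ∑ n ∈ range N, ((fourier (n : ℤ) x : ℂ) - 1) := by
    unfold Dir
    rw [Finset.sum_sub_distrib, mul_sub]
    congr 1
    rw [Finset.sum_const, card_range, nsmul_eq_mul, mul_one, inv_mul_cancel₀ hN0]
  rw [e, norm_mul, norm_inv, Complex.norm_natCast, inv_mul_le_iff₀ hN']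
  calc ‖∑ n ∈ range N, ((fourier (n : ℤ) x : ℂ) - 1)‖
      ≤ ∑ n ∈ range N, ‖(fourier (n : ℤ) x : ℂ) - 1‖ := norm_sum_le _ _
    _ ≤ ∑ n ∈ range N, 2 * Real.pi * N * ‖x‖ := by
        refine sum_le_sum fun n hn => ?_
        rw [Pool.Agent.TH654.FC.fourier_eq_one]
        refine (Pool.Agent.TH654.FC.fourier_sub_one_le _).trans ?_
        have h1 : ‖(n : ℤ) • x‖ ≤ n * ‖x‖ := by
          rw [natCast_zsmul]
          exact norm_nsmul_le
        have h2 : (n : ℝ) ≤ N := by exact_mod_cast (mem_range.1 hn).le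
        have hpi := Real.pi_pos
        calc 2 * Real.pi * ‖(n : ℤ) • x‖ ≤ 2 * Real.pi * (N * ‖x‖) := by
              refine mul_le_mul_of_nonneg_left (h1.trans ?_) (by positivity)
              exact mul_le_mul_of_nonneg_right h2 (norm_nonneg _)
          _ = 2 * Real.pi * N * ‖x‖ := by ring
    _ = N * (2 * Real.pi * N * ‖x‖) := by
        rw [Finset.sum_const, card_range, nsmul_eq_mul]

/-- outside of the middle region the averages are close -/
lemma Dir_diff {N N' : ℕ} (hN : 1 ≤ N) (hNN : N ≤ N') {R : ℝ} (hR : 1 ≤ R) (x : UnitAddCircle)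
    (hx : ¬ (1 / (R * N') ≤ ‖x‖ ∧ ‖x‖ ≤ R / N)) : ‖Dir N x - Dir N' x‖ ≤ 4 * Real.pi / R := by
  have hN0 : (0 : ℝ) < N := by exact_mod_cast hN
  have hN1 : 1 ≤ N' := hN.trans hNN
  have hN0' : (0 : ℝ) < N' := by exact_mod_cast hN1
  have hle : (N : ℝ) ≤ N' := by exact_mod_cast hNN
  have hR0 : 0 < R := by linarith
  have hpi := Real.pi_gt_three
  by_cases h : 1 / (R * N') ≤ ‖x‖
  · have h2 : R / N < ‖x‖ := by
      by_contra hcon
      exact hx ⟨h, not_lt.1 hcon⟩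
    have h3 := Dir_far hN (ρ := R / N) (by positivity) h2.le
    have h4 := Dir_far hN1 (ρ := R / N) (by positivity) h2.le
    have e3 : 1 / (2 * (R / N) * N) = 1 / (2 * R) := by field_simp
    have e4 : 1 / (2 * (R / N) * N') ≤ 1 / (2 * R) := by
      refine one_div_le_one_div_of_le (by positivity) ?_
      have : 1 ≤ (N' : ℝ) / N := by rw [le_div_iff₀ hN0]; linarith
      calc 2 * R = 2 * R * 1 := by ring
        _ ≤ 2 * R * (N' / N) := mul_le_mul_of_nonneg_left this (by positivity)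
        _ = 2 * (R / N) * N' := by ring
    rw [e3] at h3
    calc ‖Dir N x - Dir N' x‖ ≤ ‖Dir N x‖ + ‖Dir N' x‖ := norm_sub_le _ _
      _ ≤ 1 / (2 * R) + 1 / (2 * R) := add_le_add h3 (h4.trans e4)
      _ = 1 / R := by ring
      _ ≤ 4 * Real.pi / R := by
          refine div_le_div_of_nonneg_right ?_ hR0.le
          linarith
  · have h2 : ‖x‖ < 1 / (R * N') := not_le.1 h
    have h3 := Dir_near hN x
    have h4 := Dir_near hN1 x
    have h5 : 2 * Real.pi * N' * ‖x‖ ≤ 2 * Real.pi / R := by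
      calc 2 * Real.pi * N' * ‖x‖ ≤ 2 * Real.pi * N' * (1 / (R * N')) :=
            mul_le_mul_of_nonneg_left h2.le (by positivity)
        _ = 2 * Real.pi / R := by field_simp
    have h6 : 2 * Real.pi * N * ‖x‖ ≤ 2 * Real.pi * N' * ‖x‖ := by
      refine mul_le_mul_of_nonneg_right ?_ (norm_nonneg _)
      exact mul_le_mul_of_nonneg_left hle (by positivity)
    calc ‖Dir N x - Dir N' x‖ = ‖(Dir N x - 1) - (Dir N' x - 1)‖ := by ring_nf
      _ ≤ ‖Dir N x - 1‖ + ‖Dir N' x - 1‖ := norm_sub_le _ _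
      _ ≤ 2 * Real.pi / R + 2 * Real.pi / R := by linarith
      _ = 4 * Real.pi / R := by ring

/-- the mean square of the difference -/
lemma int_diff (ν : Measure UnitAddCircle) [IsProbabilityMeasure ν] {N N' : ℕ} (hN : 1 ≤ N)
    (hNN : N ≤ N') {R : ℝ} (hR : 1 ≤ R) :
    ∫ x, ‖Dir N x - Dir N' x‖ ^ 2 ∂ν ≤
      4 * ν.real {x | 1 / (R * N') ≤ ‖x‖ ∧ ‖x‖ ≤ R / N} + (4 * Real.pi / R) ^ 2 := by
  have hR0 : 0 < R := by linarith
  set M : Set UnitAddCircle := {x | 1 / (R * N') ≤ ‖x‖ ∧ ‖x‖ ≤ R / N} with hM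
  have hMm : MeasurableSet M := by
    have : IsClosed M := (isClosed_le continuous_const continuous_norm).inter
      (isClosed_le continuous_norm continuous_const)
    exact this.measurableSet
  have h1 : ∀ x, ‖Dir N x - Dir N' x‖ ^ 2 ≤ M.indicator (fun _ => (4 : ℝ)) x + (4 * Real.pi / R) ^ 2 := by
    intro x
    by_cases hx : x ∈ M
    · rw [Set.indicator_of_mem hx]
      have h2 : ‖Dir N x - Dir N' x‖ ≤ 2 := by
        calc _ ≤ ‖Dir N x‖ + ‖Dir N' x‖ := norm_sub_le _ _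
          _ ≤ 1 + 1 := add_le_add (Dir_le hN x) (Dir_le (hN.trans hNN) x)
          _ = 2 := by norm_num
      have h3 : ‖Dir N x - Dir N' x‖ ^ 2 ≤ 2 ^ 2 := pow_le_pow_left₀ (norm_nonneg _) h2 2
      have h4 : 0 ≤ (4 * Real.pi / R) ^ 2 := by positivity
      linarith
    · rw [Set.indicator_of_notMem hx, zero_add]
      exact pow_le_pow_left₀ (norm_nonneg _) (Dir_diff hN hNN hR x hx) 2
  calc ∫ x, ‖Dir N x - Dir N' x‖ ^ 2 ∂ν
      ≤ ∫ x, (M.indicator (fun _ => (4 : ℝ)) x + (4 * Real.pi / R) ^ 2) ∂ν := by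
        refine integral_mono_of_nonneg (Eventually.of_forall fun x => by positivity) ?_
          (Eventually.of_forall h1)
        exact ((integrable_const _).indicator hMm).add (integrable_const _)
    _ = 4 * ν.real M + (4 * Real.pi / R) ^ 2 := by
        rw [integral_add ((integrable_const _).indicator hMm) (integrable_const _),
          integral_indicator_const _ hMm, integral_const, probReal_univ, one_smul, smul_eq_mul,
          mul_comm]

/-- Cauchy–Schwarz -/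
lemma cs {Γ : Type*} [Group Γ] {φ : Γ → ℂ} (hφ : PD φ) (h1 : φ 1 = 1) {g : Γ}
    {ν : Measure UnitAddCircle} [IsProbabilityMeasure ν]
    (hν : ∀ n : ℤ, ∫ x, (fourier n x : ℂ) ∂ν = φ (g ^ n)) (y : Γ) (s : Finset ℕ) (c : ℕ → ℂ) :
    ‖∑ n ∈ s, c n * φ (y * g ^ n)‖ ^ 2 ≤
      ∫ x, ‖∑ n ∈ s, c n * (fourier (n : ℤ) x : ℂ)‖ ^ 2 ∂ν := by
  classical
  set S : ℂ := ∑ n ∈ s, c n * φ (y * g ^ n) with hS
  have h2 := hφ.family (insertNone s) (fun o => o.elim y⁻¹ (fun n : ℕ => g ^ n))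
    (fun o => o.elim (-S) c)
  rw [sum_insertNone] at h2
  simp only [sum_insertNone, Option.elim_none, Option.elim_some, inv_inv, mul_inv_cancel, h1,
    mul_one] at h2
  have hQ : ∑ i ∈ s, ∑ j ∈ s, star (c j) * c i * φ ((g ^ j)⁻¹ * g ^ i) =
      ((∫ x, ‖∑ n ∈ s, c n * (fourier (n : ℤ) x : ℂ)‖ ^ 2 ∂ν : ℝ) : ℂ) := by
    rw [← integral_complex_ofReal]
    have hsq : ∀ x : UnitAddCircle, ((‖∑ n ∈ s, c n * (fourier (n : ℤ) x : ℂ)‖ ^ 2 : ℝ) : ℂ) =
        ∑ i ∈ s, ∑ j ∈ s, star (c j) * c i * fourier ((i : ℤ) - j) x := by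
      intro x
      have e2 : ((‖∑ n ∈ s, c n * (fourier (n : ℤ) x : ℂ)‖ ^ 2 : ℝ) : ℂ) =
          (∑ n ∈ s, c n * (fourier (n : ℤ) x : ℂ)) *
          starRingEnd ℂ (∑ n ∈ s, c n * (fourier (n : ℤ) x : ℂ)) := by
        rw [Complex.mul_conj, Complex.normSq_eq_norm_sq]
      rw [e2, map_sum, Finset.sum_mul_sum]
      refine Finset.sum_congr rfl fun i _ => Finset.sum_congr rfl fun j _ => ?_
      rw [map_mul, ← fourier_neg, sub_eq_add_neg, fourier_add]
      simp only [Complex.star_def]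
      ring
    simp only [hsq]
    have hi : ∀ m : ℤ, Integrable (fun x : UnitAddCircle => (fourier m x : ℂ)) ν := fun m =>
      (by fun_prop : Continuous (fun x : UnitAddCircle =>
        (fourier m x : ℂ))).integrable_of_hasCompactSupport (HasCompactSupport.of_compactSpace _)
    rw [integral_finsetSum]
    · refine Finset.sum_congr rfl fun i _ => ?_
      rw [integral_finsetSum]
      · refine Finset.sum_congr rfl fun j _ => ?_
        rw [integral_const_mul, hν]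
        congr 2
        rw [zpow_sub, zpow_natCast, zpow_natCast]
        have : Commute (g ^ j)⁻¹ (g ^ i) := by
          rw [Commute.inv_left_iff]
          exact Commute.pow_pow_self g j i
        exact this
      · intro j _
        exact (hi _).const_mul _
    · intro i _
      exact integrable_finsetSum _ fun j _ => (hi _).const_mul _
  have hS2 : ∑ j ∈ s, star (c j) * -S * φ ((g ^ j)⁻¹ * y⁻¹) = -(S * star S) := by
    have : ∀ j : ℕ, φ ((g ^ j)⁻¹ * y⁻¹) = star (φ (y * g ^ j)) := by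
      intro j
      rw [← mul_inv_rev, hφ.inv h1]
    simp_rw [this]
    rw [hS, star_sum, ← neg_mul, Finset.mul_sum]
    refine Finset.sum_congr rfl fun j _ => ?_
    rw [star_mul']
    ring
  have hS3 : ∑ i ∈ s, (star (-S) * c i * φ (y * g ^ i) +
      ∑ j ∈ s, star (c j) * c i * φ ((g ^ j)⁻¹ * g ^ i)) = -(S * star S) +
        ∑ i ∈ s, ∑ j ∈ s, star (c j) * c i * φ ((g ^ j)⁻¹ * g ^ i) := by
    rw [Finset.sum_add_distrib]
    congr 1
    simp_rw [mul_assoc]
    rw [← Finset.mul_sum, star_neg, ← hS]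
    ring
  rw [hS2, hS3, hQ] at h2
  have h5 : S * star S = ((‖S‖ ^ 2 : ℝ) : ℂ) := by
    rw [Complex.star_def, Complex.mul_conj, Complex.normSq_eq_norm_sq]
  have h6 : star (-S) * -S = ((‖S‖ ^ 2 : ℝ) : ℂ) := by
    rw [← h5, star_neg]; ring
  rw [h6, h5] at h2
  have h7 : (0 : ℂ) ≤ ((∫ x, ‖∑ n ∈ s, c n * (fourier (n : ℤ) x : ℂ)‖ ^ 2 ∂ν - ‖S‖ ^ 2 : ℝ) : ℂ) := by
    refine h2.trans (le_of_eq ?_)
    push_cast
    ring
  have h8 : 0 ≤ ∫ x, ‖∑ n ∈ s, c n * (fourier (n : ℤ) x : ℂ)‖ ^ 2 ∂ν - ‖S‖ ^ 2 := by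
    exact_mod_cast h7
  linarith

/-- Cauchy–Schwarz for the difference of two averages -/
lemma avg_diff {Γ : Type*} [Group Γ] {φ : Γ → ℂ} (hφ : PD φ) (h1 : φ 1 = 1) {g : Γ}
    {ν : Measure UnitAddCircle} [IsProbabilityMeasure ν]
    (hν : ∀ n : ℤ, ∫ x, (fourier n x : ℂ) ∂ν = φ (g ^ n)) (y : Γ) {N N' : ℕ} (hNN : N ≤ N') :
    ‖(N : ℂ)⁻¹ * ∑ n ∈ range N, φ (y * g ^ n) - (N' : ℂ)⁻¹ * ∑ n ∈ range N', φ (y * g ^ n)‖ ^ 2 ≤
      ∫ x, ‖Dir N x - Dir N' x‖ ^ 2 ∂ν := by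
  classical
  set c : ℕ → ℂ := fun n => (if n < N then (N : ℂ)⁻¹ else 0) - (N' : ℂ)⁻¹ with hc
  have hgen : ∀ F : ℕ → ℂ, ∑ n ∈ range N', c n * F n =
      (N : ℂ)⁻¹ * ∑ n ∈ range N, F n - (N' : ℂ)⁻¹ * ∑ n ∈ range N', F n := by
    intro F
    simp only [hc, sub_mul, Finset.sum_sub_distrib, ← Finset.mul_sum]
    congr 1
    have : ∀ n, (if n < N then (N : ℂ)⁻¹ else 0) * F n = if n < N then (N : ℂ)⁻¹ * F n else 0 := by
      intro n
      split_ifs <;> simp
    simp_rw [this]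
    rw [← Finset.sum_filter, Finset.mul_sum]
    refine Finset.sum_congr ?_ fun _ _ => rfl
    ext n
    simp only [mem_filter, mem_range]
    omega
  have h2 := cs hφ h1 hν y (range N') c
  rw [hgen] at h2
  refine h2.trans (le_of_eq ?_)
  refine integral_congr_ae (Eventually.of_forall fun x => ?_)
  simp only
  rw [hgen]
  rfl

end Pool.Agent.K7.H79.TR
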